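import Pool.Agent.Helper11.PK.Defs

/-!
# Project PK: derivations into group algebras of finite p-groups (DERP)
-/

namespace Pool.Agent.Helper59.PK

open Pool.Agent.Helper11.PK MonoidAlgebra

universe u

section

variable (p : ℕ) [Fact p.Prime] (Q : Type u) [Group Q]

/-- Left multiplication by a group element. -/
noncomputable def act : Q →* MulAut (Multiplicative (MonoidAlgebra (ZMod p) Q)) where
  toFun q :=
    { toFun := fun m ↦ .ofAdd (gl (ZMod p) q * m.toAdd)
      invFun := fun m ↦ .ofAdd (gl (ZMod p) q⁻¹ * m.toAdd)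
      left_inv := fun m ↦ by
        apply Multiplicative.toAdd.injective
        show gl (ZMod p) q⁻¹ * (gl (ZMod p) q * m.toAdd) = m.toAdd
        rw [← mul_assoc, MonoidAlgebra.single_mul_single, inv_mul_cancel, one_mul]
        exact one_mul _
      right_inv := fun m ↦ by
        apply Multiplicative.toAdd.injective
        show gl (ZMod p) q * (gl (ZMod p) q⁻¹ * m.toAdd) = m.toAdd
        rw [← mul_assoc, MonoidAlgebra.single_mul_single, mul_inv_cancel, one_mul]
        exact one_mul _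
      map_mul' := fun m m' ↦ congrArg Multiplicative.ofAdd (mul_add _ m.toAdd m'.toAdd) }
  map_one' := by
    refine MulEquiv.ext fun m ↦ ?_
    exact congrArg Multiplicative.ofAdd (one_mul m.toAdd)
  map_mul' q q' := by
    refine MulEquiv.ext fun m ↦ ?_
    apply Multiplicative.toAdd.injective
    show gl (ZMod p) (q * q') * m.toAdd = gl (ZMod p) q * (gl (ZMod p) q' * m.toAdd)
    rw [← mul_assoc, MonoidAlgebra.single_mul_single, one_mul]

theorem aug_gl (q : Q) (m : MonoidAlgebra (ZMod p) Q) :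
    augHom (ZMod p) Q (gl (ZMod p) q * m) = augHom (ZMod p) Q m := by
  rw [map_mul]
  have : augHom (ZMod p) Q (gl (ZMod p) q) = 1 := by
    unfold augHom
    rw [MonoidAlgebra.lift_single]
    simp
  rw [this, one_mul]

/-- The map sending (m, q) to (aug m, q). -/
noncomputable def theta : (Multiplicative (MonoidAlgebra (ZMod p) Q) ⋊[act p Q] Q) →*
    (ULift.{u} (Multiplicative (ZMod p)) × Q) where
  toFun g := (⟨.ofAdd (augHom (ZMod p) Q g.left.toAdd)⟩, g.right)
  map_one' := by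
    refine Prod.ext (ULift.ext _ _ ?_) rfl
    exact congrArg Multiplicative.ofAdd (map_zero (augHom (ZMod p) Q))
  map_mul' g h := by
    refine Prod.ext (ULift.ext _ _ ?_) rfl
    show Multiplicative.ofAdd (augHom (ZMod p) Q (g.left.toAdd + gl (ZMod p) g.right *
      h.left.toAdd)) = Multiplicative.ofAdd (augHom (ZMod p) Q g.left.toAdd +
      augHom (ZMod p) Q h.left.toAdd)
    rw [map_add, aug_gl]

theorem theta_surjective : Function.Surjective (theta p Q) := by
  rintro ⟨⟨a⟩, q⟩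
  refine ⟨⟨.ofAdd (MonoidAlgebra.single 1 a.toAdd), q⟩, Prod.ext (ULift.ext _ _ ?_) rfl⟩
  show Multiplicative.ofAdd (augHom (ZMod p) Q (MonoidAlgebra.single 1 a.toAdd)) = a
  unfold augHom
  rw [MonoidAlgebra.lift_single]
  simp

theorem pgroup_E (hQ : IsPGroup p Q) :
    IsPGroup p (Multiplicative (MonoidAlgebra (ZMod p) Q) ⋊[act p Q] Q) := by
  intro g
  obtain ⟨n, hn⟩ := hQ g.right
  refine ⟨n + 1, ?_⟩
  rw [pow_succ, pow_mul]
  have h1 : (g ^ p ^ n) = SemidirectProduct.inl (g ^ p ^ n).left := by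
    have h2 : (g ^ p ^ n).right = 1 := by
      have h3 := map_pow (SemidirectProduct.rightHom (φ := act p Q)) g (p ^ n)
      have h4 : (g ^ p ^ n).right = g.right ^ p ^ n := h3
      rw [h4, hn]
    exact SemidirectProduct.ext rfl h2
  rw [h1, ← map_pow]
  have h5 : ((g ^ p ^ n).left) ^ p = 1 := by
    apply Multiplicative.toAdd.injective
    show p • (g ^ p ^ n).left.toAdd = 0
    rw [← Nat.cast_smul_eq_nsmul (ZMod p), ZMod.natCast_self, zero_smul]
  rw [h5, map_one]

theorem pgroup_Q (hQ : IsPGroup p Q) : IsPGroup p (ULift.{u} (Multiplicative (ZMod p)) × Q) := by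
  rintro ⟨⟨a⟩, q⟩
  obtain ⟨n, hn⟩ := hQ q
  refine ⟨n + 1, Prod.ext (ULift.ext _ _ ?_) ?_⟩
  · apply Multiplicative.toAdd.injective
    show (p ^ (n + 1)) • a.toAdd = 0
    rw [← Nat.cast_smul_eq_nsmul (ZMod p), Nat.cast_pow, ZMod.natCast_self, pow_succ, mul_zero,
      zero_smul]
  · show q ^ (p ^ (n + 1)) = 1
    rw [pow_succ, pow_mul, hn, one_pow]

end

/-- **DERP.** -/
theorem derp (p : ℕ) [Fact p.Prime] {L : Type u} [Group L]
    (hlift : ∀ {Q₁ Q₂ : Type u} [Group Q₁] [Group Q₂] [Finite Q₁] [Finite Q₂]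
      (_ : IsPGroup p Q₁) (_ : IsPGroup p Q₂) (θ : Q₂ →* Q₁) (_ : Function.Surjective θ)
      (φ : L →* Q₁), ∃ φ' : L →* Q₂, θ.comp φ' = φ)
    {Q : Type u} [Group Q] [Finite Q] (hQ : IsPGroup p Q) (ρ : L →* Q) (χ : L → ZMod p)
    (hχ : ∀ g h, χ (g * h) = χ g + χ h) :
    ∃ δ : L → MonoidAlgebra (ZMod p) Q,
      (∀ g h, δ (g * h) = δ g + gl (ZMod p) (ρ g) * δ h) ∧
      ∀ g, augHom (ZMod p) Q (δ g) = χ g := by
  have : NeZero p := ⟨(Fact.out : p.Prime).ne_zero⟩
  have hfM : Finite (MonoidAlgebra (ZMod p) Q) := by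
    have : Module.Finite (ZMod p) (MonoidAlgebra (ZMod p) Q) := inferInstance
    exact Module.finite_of_finite (ZMod p)
  have hfE : Finite (Multiplicative (MonoidAlgebra (ZMod p) Q) ⋊[act p Q] Q) :=
    Finite.of_equiv _ (SemidirectProduct.equivProd (φ := act p Q)).symm
  let φ₁ : L →* (ULift.{u} (Multiplicative (ZMod p)) × Q) :=
    MonoidHom.mk' (fun g ↦ (⟨.ofAdd (χ g)⟩, ρ g)) fun g h ↦ by
      refine Prod.ext (ULift.ext _ _ ?_) (map_mul ρ g h)
      exact congrArg Multiplicative.ofAdd (hχ g h)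
  obtain ⟨φ', hφ'⟩ := hlift (pgroup_Q p Q hQ) (pgroup_E p Q hQ) (theta p Q)
    (theta_surjective p Q) φ₁
  have h1 : ∀ g, (φ' g).right = ρ g := fun g ↦
    congrArg Prod.snd (DFunLike.congr_fun hφ' g)
  have h2 : ∀ g, augHom (ZMod p) Q (φ' g).left.toAdd = χ g := fun g ↦
    congrArg (fun z : ULift.{u} (Multiplicative (ZMod p)) × Q ↦ z.1.down.toAdd)
      (DFunLike.congr_fun hφ' g)
  refine ⟨fun g ↦ (φ' g).left.toAdd, fun g h ↦ ?_, h2⟩
  show (φ' (g * h)).left.toAdd = _
  rw [map_mul, ← h1 g]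
  rfl

end Pool.Agent.Helper59.PK
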